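import Pool.Agent.helper88.WB.MBase

/-! helper78: module WB-MG, a linear map conjugating a Moebius map which moves infinity to a Moebius
map is conformal. -/

set_option autoImplicit false
open Matrix MeasureTheory Filter Topology

namespace Pool.Agent.helper88.WB
open Pool.Agent.helper21.WB

/-- a point of the chart not sent to infinity -/
theorem MG.exists_img {g : GLI} (hg : InG g) {x : E} (h : kact g (st x) ≠ pinf) :
    ∃ z : E, kact g (st x) = st z ∧ ∃ c : ℝ, 0 < c ∧ g.val *ᵥ nv x = c • nv z := by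
  obtain ⟨z, hz⟩ := exists_st (kact_mem_Sph hg (st_mem x)) h
  refine ⟨z, hz.symm, ?_⟩
  have h1 := mulVec_nl hg (Sph_subset_Bal (st_mem x))
  have h2 := mulVec_nl_pos hg (Sph_subset_Bal (st_mem x))
  set l := (g.val *ᵥ nl (st x)) o with hl
  rw [← hz, nl_st, nl_st, Matrix.mulVec_smul] at h1
  have hx : 0 < 1 + ‖x‖ ^ 2 := by positivity
  have hzz : 0 < 1 + ‖z‖ ^ 2 := by positivity
  refine ⟨(1 + ‖x‖ ^ 2) / 2 * (l * (2 / (1 + ‖z‖ ^ 2))), by positivity, ?_⟩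
  have h3 : g.val *ᵥ nv x = ((1 + ‖x‖ ^ 2) / 2) • ((2 / (1 + ‖x‖ ^ 2)) • (g.val *ᵥ nv x)) := by
    rw [smul_smul]
    have : (1 + ‖x‖ ^ 2) / 2 * (2 / (1 + ‖x‖ ^ 2)) = 1 := by field_simp
    rw [this, one_smul]
  rw [h3, h1, smul_smul, smul_smul]
  congr 1
  ring

/-- a point of the chart sent to infinity -/
theorem MG.exists_pole {g : GLI} (hg : InG g) {b : E} (h : kact g (st b) = pinf) :
    ∃ c : ℝ, 0 < c ∧ g.val *ᵥ nv b = c • ninf := by
  have h1 := mulVec_nl hg (Sph_subset_Bal (st_mem b))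
  have h2 := mulVec_nl_pos hg (Sph_subset_Bal (st_mem b))
  set l := (g.val *ᵥ nl (st b)) o with hl
  rw [h, nl_st, nl_pinf, Matrix.mulVec_smul] at h1
  have hx : 0 < 1 + ‖b‖ ^ 2 := by positivity
  refine ⟨(1 + ‖b‖ ^ 2) / 2 * l, by positivity, ?_⟩
  have h3 : g.val *ᵥ nv b = ((1 + ‖b‖ ^ 2) / 2) • ((2 / (1 + ‖b‖ ^ 2)) • (g.val *ᵥ nv b)) := by
    rw [smul_smul]
    have : (1 + ‖b‖ ^ 2) / 2 * (2 / (1 + ‖b‖ ^ 2)) = 1 := by field_simp
    rw [this, one_smul]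
  rw [h3, h1, smul_smul]

theorem MG.bl_pres {g : GLI} (hg : InG g) (v w : I → ℝ) : bl (g.val *ᵥ v) (g.val *ᵥ w) = bl v w :=
  bl_mulVec hg.1 v w

/-- the distance formula for a Moebius map with pole `b` -/
theorem MG.dist_formula {g : GLI} (hg : InG g) {b : E} (h : kact g (st b) = pinf) :
    ∃ K : ℝ, 0 < K ∧ ∀ x y x' y' : E, kact g (st x) = st x' → kact g (st y) = st y' →
      ‖x' - y'‖ ^ 2 * (‖x - b‖ ^ 2 * ‖y - b‖ ^ 2) = K * ‖x - y‖ ^ 2 := by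
  obtain ⟨m, hm, hb⟩ := MG.exists_pole hg h
  refine ⟨4 * m ^ 2, by positivity, ?_⟩
  intro x y x' y' hx hy
  have key : ∀ z z' : E, kact g (st z) = st z' → ∃ c : ℝ, 0 < c ∧ g.val *ᵥ nv z = c • nv z' ∧
      c * m = ‖z - b‖ ^ 2 / 2 := by
    intro z z' hz
    obtain ⟨w, hw, c, hc, hcw⟩ := MG.exists_img hg (x := z) (by rw [hz]; exact st_ne_pinf z')
    have : w = z' := st_injective (by rw [← hw, hz])
    subst this
    refine ⟨c, hc, hcw, ?_⟩
    have h1 := MG.bl_pres hg (nv z) (nv b)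
    rw [hcw, hb, bl_smul_left, bl_smul_right, bl_nv_ninf, bl_nv] at h1
    linarith
  obtain ⟨c, hc, hcx, hcm⟩ := key x x' hx
  obtain ⟨d, hd, hdy, hdm⟩ := key y y' hy
  have h1 := MG.bl_pres hg (nv x) (nv y)
  rw [hcx, hdy, bl_smul_left, bl_smul_right, bl_nv, bl_nv] at h1
  have h2 : ‖x - b‖ ^ 2 = 2 * (c * m) := by linarith
  have h3 : ‖y - b‖ ^ 2 = 2 * (d * m) := by linarith
  rw [h2, h3]
  have h4 : c * d * ‖x' - y'‖ ^ 2 = ‖x - y‖ ^ 2 := by
    have : c * (d * (-‖x' - y'‖ ^ 2 / 2)) = -‖x - y‖ ^ 2 / 2 := h1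
    linarith
  rw [← h4]; ring

theorem MG.kact_inv {g : GLI} (hg : InG g) {u : Fin 4 → ℝ} (hu : u ∈ Sph) :
    kact g (kact g⁻¹ u) = u := by
  rw [← kact_mul hg hg.inv (Sph_subset_Bal hu), mul_inv_cancel, kact_one]

theorem MG.kact_inv' {g : GLI} (hg : InG g) {u : Fin 4 → ℝ} (hu : u ∈ Sph) :
    kact g⁻¹ (kact g u) = u := by
  rw [← kact_mul hg.inv hg (Sph_subset_Bal hu), inv_mul_cancel, kact_one]

/-- the image of a small perturbation of `x` can be chosen in a prescribed direction from the image of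
`x` -/
theorem MG.approx {g : GLI} (hg : InG g) {a b x : E} (ha : kact g pinf = st a)
    (hb : kact g (st b) = pinf) (hx : x ≠ b) {K : ℝ} (hK : 0 < K)
    (hd : ∀ x y x' y' : E, kact g (st x) = st x' → kact g (st y) = st y' →
      ‖x' - y'‖ ^ 2 * (‖x - b‖ ^ 2 * ‖y - b‖ ^ 2) = K * ‖x - y‖ ^ 2)
    {w : E} (hw : ‖w‖ = 1) {δ : ℝ} (hδ : 0 < δ) :
    ∃ y x' y' : E, y ≠ x ∧ y ≠ b ∧ ‖y - x‖ < δ ∧ kact g (st x) = st x' ∧ kact g (st y) = st y' ∧
      ∃ s : ℝ, 0 < s ∧ x' - y' = s • w := by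
  have hxp : kact g (st x) ≠ pinf := by
    intro h
    have h1 := MG.kact_inv' hg (st_mem x)
    have h2 := MG.kact_inv' hg (st_mem b)
    rw [h] at h1
    rw [hb] at h2
    exact hx (st_injective (h1.symm.trans h2))
  obtain ⟨x', hx'⟩ := exists_st (kact_mem_Sph hg (st_mem x)) hxp
  have hxa : x' ≠ a := by
    intro h
    rw [h, ← ha] at hx'
    have h1 := MG.kact_inv' hg (st_mem x)
    have h2 := MG.kact_inv' hg pinf_mem
    rw [← hx', h2] at h1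
    exact st_ne_pinf x h1.symm
  have hp : 0 < ‖x - b‖ := norm_pos_iff.2 (sub_ne_zero.2 hx)
  have hq : 0 < ‖x' - a‖ := norm_pos_iff.2 (sub_ne_zero.2 hxa)
  have hk : 0 < Real.sqrt K := Real.sqrt_pos.2 hK
  set p := ‖x - b‖ with hpdef
  set κ := p / Real.sqrt K with hκ
  have hκ0 : 0 < κ := div_pos hp hk
  obtain ⟨s, hs0, hs1, hs2, hs3⟩ : ∃ s : ℝ, 0 < s ∧ s < ‖x' - a‖ ∧ s * κ ≤ 1 / 2 ∧
      2 * s * κ * p < δ := by
    refine ⟨min (‖x' - a‖ / 2) (min (1 / (2 * κ)) (δ / (4 * κ * p))), ?_, ?_, ?_, ?_⟩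
    · exact lt_min (by positivity) (lt_min (by positivity) (by positivity))
    · exact (min_le_left _ _).trans_lt (by linarith)
    · have h1 : min (‖x' - a‖ / 2) (min (1 / (2 * κ)) (δ / (4 * κ * p))) ≤ 1 / (2 * κ) :=
        (min_le_right _ _).trans (min_le_left _ _)
      calc _ ≤ 1 / (2 * κ) * κ := by gcongr
        _ = 1 / 2 := by field_simp
    · have h1 : min (‖x' - a‖ / 2) (min (1 / (2 * κ)) (δ / (4 * κ * p))) ≤ δ / (4 * κ * p) :=
        (min_le_right _ _).trans (min_le_right _ _)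
      calc 2 * min (‖x' - a‖ / 2) (min (1 / (2 * κ)) (δ / (4 * κ * p))) * κ * p
          ≤ 2 * (δ / (4 * κ * p)) * κ * p := by gcongr
        _ = δ / 2 := by field_simp; norm_num
        _ < δ := by linarith
  set y' := x' - s • w with hy'
  have hy'a : y' ≠ a := by
    intro h
    have : ‖x' - a‖ = s := by
      rw [← h, hy']
      simp [norm_smul, hw, abs_of_pos hs0]
    linarith
  have hyp : kact g⁻¹ (st y') ≠ pinf := by
    intro h
    have h1 := MG.kact_inv hg (st_mem y')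
    rw [h, ha] at h1
    exact hy'a (st_injective h1.symm)
  obtain ⟨y, hy⟩ := exists_st (kact_mem_Sph hg.inv (st_mem y')) hyp
  have hgy : kact g (st y) = st y' := by rw [hy]; exact MG.kact_inv hg (st_mem y')
  have hxy' : x' - y' = s • w := by rw [hy']; abel
  have hyx : y ≠ x := by
    intro h
    rw [h] at hgy
    have h1 : x' = y' := st_injective (by rw [hx', hgy])
    rw [h1, sub_self] at hxy'
    have h2 : ‖s • w‖ = 0 := by rw [← hxy']; simp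
    rw [norm_smul, hw, Real.norm_eq_abs, abs_of_pos hs0] at h2
    linarith
  have hyb : y ≠ b := by
    intro h
    rw [h, hb] at hgy
    exact st_ne_pinf y' hgy.symm
  refine ⟨y, x', y', hyx, hyb, ?_, hx'.symm, hgy, s, hs0, hxy'⟩
  have h1 := hd x y x' y' hx'.symm hgy
  rw [hxy', norm_smul, hw, Real.norm_eq_abs, abs_of_pos hs0, mul_one] at h1
  have h2 : s * (p * ‖y - b‖) = Real.sqrt K * ‖x - y‖ := by
    have e : (s * (p * ‖y - b‖)) ^ 2 = (Real.sqrt K * ‖x - y‖) ^ 2 := by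
      rw [mul_pow (Real.sqrt K), Real.sq_sqrt hK.le, ← h1]; ring
    exact (pow_left_inj₀ (by positivity) (by positivity) (by norm_num)).1 e
  have h3 : ‖y - b‖ ≤ p + ‖x - y‖ := by
    have : y - b = (x - b) - (x - y) := by abel
    rw [this]
    exact norm_sub_le _ _
  have h4 : ‖x - y‖ = s * κ * ‖y - b‖ := by
    rw [hκ]; field_simp; linarith
  have h5 : ‖x - y‖ ≤ s * κ * (p + ‖x - y‖) := by
    calc ‖x - y‖ = s * κ * ‖y - b‖ := h4
      _ ≤ _ := by gcongr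
  have h6 : s * κ * ‖x - y‖ ≤ 1 / 2 * ‖x - y‖ := by gcongr
  rw [norm_sub_rev]
  nlinarith

theorem conf_of_conj (A : E ≃L[ℝ] E) (g g' : GLI) (hg : InG g) (hg' : InG g')
    (h : ∀ u v, Rel A u v → Rel A (kact g u) (kact g' v)) (hinf : kact g pinf ≠ pinf) :
    ∃ c : ℝ, 0 < c ∧ ∀ v : E, ‖A v‖ = c * ‖v‖ := by
  obtain ⟨a, ha⟩ := exists_st (kact_mem_Sph hg pinf_mem) hinf
  have hinf' : kact g⁻¹ pinf ≠ pinf := by
    intro e
    have h1 := MG.kact_inv hg pinf_mem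
    rw [e] at h1
    exact hinf h1
  obtain ⟨b, hb'⟩ := exists_st (kact_mem_Sph hg.inv pinf_mem) hinf'
  have hb : kact g (st b) = pinf := by rw [hb']; exact MG.kact_inv hg pinf_mem
  have hnp : ∀ x, x ≠ b → kact g (st x) ≠ pinf := by
    intro x hx e
    have h1 := MG.kact_inv' hg (st_mem x)
    have h2 := MG.kact_inv' hg (st_mem b)
    rw [e] at h1
    rw [hb] at h2
    exact hx (st_injective (h1.symm.trans h2))
  have hAb : kact g' (st (A b)) = pinf := by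
    rcases h (st b) (st (A b)) (Or.inr ⟨b, rfl, rfl⟩) with ⟨_, h2⟩ | ⟨y, h1, _⟩
    · exact h2
    · rw [hb] at h1
      exact absurd h1.symm (st_ne_pinf y)
  have hA : ∀ x x' : E, kact g (st x) = st x' → kact g' (st (A x)) = st (A x') := by
    intro x x' e
    rcases h (st x) (st (A x)) (Or.inr ⟨x, rfl, rfl⟩) with ⟨h1, _⟩ | ⟨y, h1, h2⟩
    · rw [e] at h1
      exact absurd h1 (st_ne_pinf x')
    · rw [e] at h1
      rw [h2, st_injective h1]
  obtain ⟨K, hK, hd⟩ := MG.dist_formula hg hb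
  obtain ⟨K', hK', hd'⟩ := MG.dist_formula hg' hAb
  -- extremal directions
  have hcpt : IsCompact (Metric.sphere (0 : E) 1) := isCompact_sphere 0 1
  have hne : (Metric.sphere (0 : E) 1).Nonempty := NormedSpace.sphere_nonempty.2 zero_le_one
  have hcont : ContinuousOn (fun v : E => ‖A v‖) (Metric.sphere (0 : E) 1) := by fun_prop
  obtain ⟨v₁, hv₁, hmax⟩ := hcpt.exists_isMaxOn hne hcont
  obtain ⟨v₂, hv₂, hmin⟩ := hcpt.exists_isMinOn hne hcont
  have hn₁ : ‖v₁‖ = 1 := by simpa using hv₁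
  have hn₂ : ‖v₂‖ = 1 := by simpa using hv₂
  have hpos : ∀ v : E, v ≠ 0 → 0 < ‖A v‖ := by
    intro v hv
    rw [norm_pos_iff]
    intro e
    exact hv (A.injective (by rw [e, map_zero]))
  have hM : 0 < ‖A v₁‖ := hpos v₁ (by rintro rfl; simp at hn₁)
  have hm : 0 < ‖A v₂‖ := hpos v₂ (by rintro rfl; simp at hn₂)
  have hscale : ∀ v : E, v ≠ 0 → ‖A v‖ = ‖v‖ * ‖A (‖v‖⁻¹ • v)‖ := by
    intro v hv
    have : 0 < ‖v‖ := norm_pos_iff.2 hv
    rw [map_smul, norm_smul, norm_inv, norm_norm]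
    field_simp
  have hunit : ∀ v : E, v ≠ 0 → (‖v‖⁻¹ • v) ∈ Metric.sphere (0 : E) 1 := by
    intro v hv
    have : 0 < ‖v‖ := norm_pos_iff.2 hv
    simp [norm_smul, this.ne']
  have hle : ∀ v : E, ‖A v‖ ≤ ‖A v₁‖ * ‖v‖ := by
    intro v
    by_cases hv : v = 0
    · simp [hv]
    · rw [hscale v hv, mul_comm]
      exact mul_le_mul_of_nonneg_right (hmax (hunit v hv)) (norm_nonneg _)
  have hge : ∀ v : E, ‖A v₂‖ * ‖v‖ ≤ ‖A v‖ := by
    intro v
    by_cases hv : v = 0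
    · simp [hv]
    · rw [hscale v hv, mul_comm]
      exact mul_le_mul_of_nonneg_left (hmin (hunit v hv)) (norm_nonneg _)
  -- the key identity
  have hkey : ∀ X : E, X ≠ 0 → ‖A X‖ ^ 2 * ‖A X‖ ^ 2 * K = K' * (‖X‖ ^ 2 * ‖X‖ ^ 2) := by
    intro X hX
    set x := X + b with hxdef
    have hxb : x - b = X := by rw [hxdef]; abel
    have hxne : x ≠ b := by
      intro e
      rw [e, sub_self] at hxb
      exact hX hxb.symm
    have hGc : Continuous (fun Y : E => ‖A X‖ ^ 2 * ‖A Y‖ ^ 2 * K - K' * (‖X‖ ^ 2 * ‖Y‖ ^ 2)) := by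
      fun_prop
    apply le_antisymm
    · by_contra hcon
      have hcon := not_le.1 hcon
      have hG0 : 0 < ‖A X‖ ^ 2 * ‖A X‖ ^ 2 * K - K' * (‖X‖ ^ 2 * ‖X‖ ^ 2) := by linarith
      have hev := hGc.continuousAt.eventually (lt_mem_nhds hG0)
      obtain ⟨δ, hδ, hball⟩ := Metric.eventually_nhds_iff.1 hev
      obtain ⟨y, x', y', hyx, hyb, hyd, hx', hy', s, hs, hxy⟩ :=
        MG.approx hg ha.symm hb hxne hK hd hn₁ hδ
      have e1 := hd x y x' y' hx' hy'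
      have e2 := hd' (A x) (A y) (A x') (A y') (hA x x' hx') (hA y y' hy')
      rw [← map_sub, ← map_sub, ← map_sub, ← map_sub] at e2
      rw [hxy, norm_smul, Real.norm_eq_abs, abs_of_pos hs, hn₁, mul_one, hxb] at e1
      rw [hxy, map_smul, norm_smul, Real.norm_eq_abs, abs_of_pos hs, hxb] at e2
      have h3 := hball (y := y - b) (by rw [dist_eq_norm, show y - b - X = y - x by rw [hxdef]; abel]; exact hyd)
      have h4 : ‖A (x - y)‖ ^ 2 ≤ (‖A v₁‖ * ‖x - y‖) ^ 2 :=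
        pow_le_pow_left₀ (norm_nonneg _) (hle _) 2
      have h5 : s ^ 2 * ‖A v₁‖ ^ 2 * (‖A X‖ ^ 2 * ‖A (y - b)‖ ^ 2 * K)
          ≤ s ^ 2 * ‖A v₁‖ ^ 2 * (K' * (‖X‖ ^ 2 * ‖y - b‖ ^ 2)) := by
        calc s ^ 2 * ‖A v₁‖ ^ 2 * (‖A X‖ ^ 2 * ‖A (y - b)‖ ^ 2 * K)
            = K * ((s * ‖A v₁‖) ^ 2 * (‖A X‖ ^ 2 * ‖A (y - b)‖ ^ 2)) := by ring
          _ = K * (K' * ‖A (x - y)‖ ^ 2) := by rw [e2]
          _ ≤ K * (K' * (‖A v₁‖ * ‖x - y‖) ^ 2) := by gcongr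
          _ = K' * ‖A v₁‖ ^ 2 * (K * ‖x - y‖ ^ 2) := by ring
          _ = K' * ‖A v₁‖ ^ 2 * (s ^ 2 * (‖X‖ ^ 2 * ‖y - b‖ ^ 2)) := by rw [e1]
          _ = _ := by ring
      have h6 := le_of_mul_le_mul_left h5 (by positivity)
      linarith
    · by_contra hcon
      have hcon := not_le.1 hcon
      have hG0 : ‖A X‖ ^ 2 * ‖A X‖ ^ 2 * K - K' * (‖X‖ ^ 2 * ‖X‖ ^ 2) < 0 := by linarith
      have hev := hGc.continuousAt.eventually (gt_mem_nhds hG0)
      obtain ⟨δ, hδ, hball⟩ := Metric.eventually_nhds_iff.1 hev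
      obtain ⟨y, x', y', hyx, hyb, hyd, hx', hy', s, hs, hxy⟩ :=
        MG.approx hg ha.symm hb hxne hK hd hn₂ hδ
      have e1 := hd x y x' y' hx' hy'
      have e2 := hd' (A x) (A y) (A x') (A y') (hA x x' hx') (hA y y' hy')
      rw [← map_sub, ← map_sub, ← map_sub, ← map_sub] at e2
      rw [hxy, norm_smul, Real.norm_eq_abs, abs_of_pos hs, hn₂, mul_one, hxb] at e1
      rw [hxy, map_smul, norm_smul, Real.norm_eq_abs, abs_of_pos hs, hxb] at e2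
      have h3 := hball (y := y - b) (by rw [dist_eq_norm, show y - b - X = y - x by rw [hxdef]; abel]; exact hyd)
      have h4 : (‖A v₂‖ * ‖x - y‖) ^ 2 ≤ ‖A (x - y)‖ ^ 2 :=
        pow_le_pow_left₀ (by positivity) (hge _) 2
      have h5 : s ^ 2 * ‖A v₂‖ ^ 2 * (K' * (‖X‖ ^ 2 * ‖y - b‖ ^ 2))
          ≤ s ^ 2 * ‖A v₂‖ ^ 2 * (‖A X‖ ^ 2 * ‖A (y - b)‖ ^ 2 * K) := by
        calc s ^ 2 * ‖A v₂‖ ^ 2 * (K' * (‖X‖ ^ 2 * ‖y - b‖ ^ 2))
            = K' * ‖A v₂‖ ^ 2 * (s ^ 2 * (‖X‖ ^ 2 * ‖y - b‖ ^ 2)) := by ring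
          _ = K' * ‖A v₂‖ ^ 2 * (K * ‖x - y‖ ^ 2) := by rw [e1]
          _ = K * (K' * (‖A v₂‖ * ‖x - y‖) ^ 2) := by ring
          _ ≤ K * (K' * ‖A (x - y)‖ ^ 2) := by gcongr
          _ = K * ((s * ‖A v₂‖) ^ 2 * (‖A X‖ ^ 2 * ‖A (y - b)‖ ^ 2)) := by rw [e2]
          _ = _ := by ring
      have h6 := le_of_mul_le_mul_left h5 (by positivity)
      linarith
  -- conclusion
  refine ⟨‖A v₁‖, hM, fun v => ?_⟩
  by_cases hv : v = 0
  · simp [hv]
  have e1 := hkey v hv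
  have e2 := hkey v₁ (by rintro rfl; simp at hn₁)
  rw [hn₁] at e2
  have hv0 : 0 < ‖v‖ := norm_pos_iff.2 hv
  have e3 : ‖A v‖ ^ 4 = (‖A v₁‖ * ‖v‖) ^ 4 := by
    have : K * ‖A v‖ ^ 4 = K * (‖A v₁‖ * ‖v‖) ^ 4 := by
      have h7 : K' = ‖A v₁‖ ^ 4 * K := by linarith
      rw [h7] at e1
      calc K * ‖A v‖ ^ 4 = ‖A v‖ ^ 2 * ‖A v‖ ^ 2 * K := by ring
        _ = ‖A v₁‖ ^ 4 * K * (‖v‖ ^ 2 * ‖v‖ ^ 2) := e1
        _ = _ := by ring
    exact mul_left_cancel₀ hK.ne' this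
  exact (pow_left_inj₀ (norm_nonneg _) (by positivity) (by norm_num)).1 e3

end Pool.Agent.helper88.WB
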