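import Pool.Agent.helper88.WB.MBase
import Pool.Agent.helper36.WB.MK2

/-! helper78: module WB-MF, zooming at a conical point of differentiability. -/

set_option autoImplicit false
open Matrix MeasureTheory Filter Topology

namespace Pool.Agent.helper88.WB
open Pool.Agent.helper21.WB

theorem MF.kact_inv' {g : GLI} (hg : InG g) {u : Fin 4 → ℝ} (hu : u ∈ Sph) :
    kact g⁻¹ (kact g u) = u := by
  rw [← kact_mul hg.inv hg (Sph_subset_Bal hu), inv_mul_cancel, kact_one]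

theorem MF.kact_inv {g : GLI} (hg : InG g) {u : Fin 4 → ℝ} (hu : u ∈ Sph) :
    kact g (kact g⁻¹ u) = u := by
  rw [← kact_mul hg hg.inv (Sph_subset_Bal hu), mul_inv_cancel, kact_one]

/-- similarities and their action on the chart -/
theorem MF.sim (x : E) {t : ℝ} (ht : 0 < t) : ∃ g : GLI, InG g ∧
    (∀ y : E, kact g (st y) = st (x + t • y)) ∧ kact g pinf = pinf ∧ act g 0 = hp x t := by
  obtain ⟨g, hg, h1, h2, h3⟩ := exists_sim (LinearIsometryEquiv.refl ℝ E) x ht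
  refine ⟨g, hg, fun y => ?_, kact_pinf_of ht h2, h3⟩
  exact kact_st_of (inv_pos.2 ht) (by simpa using h1 y)

/-- difference quotients -/
theorem MF.tendsto_quot {f : E → E} {x : E} {A : E →L[ℝ] E} (hA : HasFDerivAt f A x)
    {t : ℕ → ℝ} (ht : ∀ n, 0 < t n) (ht0 : Tendsto t atTop (𝓝 0)) (y : E) :
    Tendsto (fun n => (t n)⁻¹ • (f (x + t n • y) - f x)) atTop (𝓝 (A y)) := by
  have hc : Tendsto (fun n => ‖(t n)⁻¹‖) atTop atTop := by
    have h1 : Tendsto t atTop (𝓝[>] 0) :=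
      tendsto_nhdsWithin_iff.2 ⟨ht0, Eventually.of_forall ht⟩
    have h2 : Tendsto (fun n => (t n)⁻¹) atTop atTop := tendsto_inv_nhdsGT_zero.comp h1
    exact tendsto_norm_atTop_atTop.comp h2
  have h := hA.lim y (c := fun n => (t n)⁻¹) hc
  simpa only [inv_inv] using h

/-- limits of `bb` -/
theorem MF.tendsto_bb {u v : ℕ → Fin 4 → ℝ} {u₀ v₀ : Fin 4 → ℝ} (hu : Tendsto u atTop (𝓝 u₀))
    (hv : Tendsto v atTop (𝓝 v₀)) : Tendsto (fun n => bb (u n) (v n)) atTop (𝓝 (bb u₀ v₀)) := by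
  have h := (continuous_bb.tendsto (u₀, v₀)).comp (hu.prodMk_nhds hv)
  exact h

theorem MF.bb_pos {u v : Fin 4 → ℝ} (hu : u ∈ Sph) (hv : v ∈ Sph) (h : u ≠ v) : 0 < bb u v := by
  have h1 := bb_nonneg (Sph_subset_Bal hu) (Sph_subset_Bal hv)
  rcases h1.lt_or_eq with h2 | h2
  · exact h2
  · exact absurd ((bb_eq_zero hu hv).1 h2.symm) h

theorem zoom {Γ : Subgroup GLI} (hΓ : ∀ γ ∈ Γ, InG γ) {θ : (Fin 4 → ℝ) → (Fin 4 → ℝ)}
    (hθ : Set.MapsTo θ Sph Sph) (hc : ContinuousOn θ Sph) (hinj : Set.InjOn θ Sph)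
    (hinf : θ pinf = pinf) {f : E → E} (hf : ∀ x, θ (st x) = st (f x)) {ρ : Γ → GLI}
    (hρ : ∀ γ, InG (ρ γ)) (heq : ∀ γ : Γ, ∀ u ∈ Sph, θ (kact γ.1 u) = kact (ρ γ) (θ u))
    {x : E} {A : E ≃L[ℝ] E} (hA : HasFDerivAt f (A : E →L[ℝ] E) x) {r : ℝ}
    (hcon : ∀ ε : ℝ, 0 < ε → ∃ t : ℝ, 0 < t ∧ t < ε ∧ ∃ γ ∈ Γ, hd (hp x t) (act γ 0) ≤ r) :
    ∃ m k : GLI, InG m ∧ InG k ∧ (∀ y : E, kact m (θ (kact k (st y))) = st (A y)) ∧
      kact m (θ (kact k pinf)) = pinf := by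
  classical
  -- sequences
  have hcon' : ∀ n : ℕ, ∃ t : ℝ, 0 < t ∧ t < 1 / ((n : ℝ) + 1) ∧ ∃ γ : Γ,
      hd (hp x t) (act γ.1 0) ≤ r := by
    intro n
    obtain ⟨t, h1, h2, γ, hγ, h3⟩ := hcon (1 / ((n : ℝ) + 1)) (by positivity)
    exact ⟨t, h1, h2, ⟨γ, hγ⟩, h3⟩
  choose t ht0 ht1 γ hγ using hcon'
  have htl : Tendsto t atTop (𝓝 0) := by
    refine squeeze_zero (fun n => (ht0 n).le) (fun n => (ht1 n).le) ?_
    exact tendsto_one_div_add_atTop_nhds_zero_nat
  choose g hg hgs hgi hg0 using fun n => MF.sim x (ht0 n)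
  choose h hh hhs hhi hh0 using fun n => MF.sim (f x) (ht0 n)
  set k : ℕ → GLI := fun n => (γ n).1⁻¹ * g n with hk
  have hγG : ∀ n, InG (γ n).1 := fun n => hΓ _ (γ n).2
  have hkG : ∀ n, InG (k n) := fun n => (hγG n).inv.mul (hg n)
  set m : ℕ → GLI := fun n => (h n)⁻¹ * ρ (γ n) with hm
  have hmG : ∀ n, InG (m n) := fun n => (hh n).inv.mul (hρ _)
  -- `k n` is bounded
  have hkr : ∀ n, hd 0 (act (k n) 0) ≤ r := by
    intro n
    have h1 : act (γ n).1 (act (k n) 0) = hp x (t n) := by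
      rw [← act_mul (hkG n), hk]
      simp only [mul_inv_cancel_left]
      exact hg0 n
    rw [← hd_act (hγG n), h1, hd_comm]
    exact hγ n
  -- the zoomed maps
  set z : ℕ → E → E := fun n y => (t n)⁻¹ • (f (x + t n • y) - f x) with hz
  have hzoom : ∀ n y, kact (m n) (θ (kact (k n) (st y))) = st (z n y) := by
    intro n y
    have hu : kact (k n) (st y) ∈ Sph := kact_mem_Sph (hkG n) (st_mem y)
    have h1 : kact (γ n).1 (kact (k n) (st y)) = st (x + t n • y) := by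
      rw [← kact_mul (hγG n) (hkG n) (Sph_subset_Bal (st_mem y)), hk]
      simp only [mul_inv_cancel_left]
      exact hgs n y
    have h2 := heq (γ n) _ hu
    rw [h1, hf] at h2
    have h3 : kact (h n) (st (z n y)) = st (f (x + t n • y)) := by
      rw [hhs, hz]
      simp only [smul_smul, mul_inv_cancel₀ (ht0 n).ne', one_smul, add_sub_cancel]
    rw [hm]
    simp only
    rw [kact_mul (hh n).inv (hρ _) (Sph_subset_Bal (hθ hu)), ← h2, ← h3]
    exact MF.kact_inv' (hh n) (st_mem _)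
  have hzoomi : ∀ n, kact (m n) (θ (kact (k n) pinf)) = pinf := by
    intro n
    have hu : kact (k n) pinf ∈ Sph := kact_mem_Sph (hkG n) pinf_mem
    have h1 : kact (γ n).1 (kact (k n) pinf) = pinf := by
      rw [← kact_mul (hγG n) (hkG n) (Sph_subset_Bal pinf_mem), hk]
      simp only [mul_inv_cancel_left]
      exact hgi n
    have h2 := heq (γ n) _ hu
    rw [h1, hinf] at h2
    rw [hm]
    simp only
    rw [kact_mul (hh n).inv (hρ _) (Sph_subset_Bal (hθ hu)), ← h2]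
    have h3 := MF.kact_inv' (hh n) pinf_mem
    rwa [hhi n] at h3
  have hzl : ∀ y, Tendsto (fun n => z n y) atTop (𝓝 (A y)) := fun y => MF.tendsto_quot hA ht0 htl y
  -- first subsequence
  obtain ⟨φ, hφ, K, hK, hkK⟩ := exists_subseq hkG hkr
  have hlim : ∀ u ∈ Sph, Tendsto (fun n => θ (kact (k (φ n)) u)) atTop (𝓝 (θ (kact K u))) := by
    intro u hu
    have h1 : Tendsto (fun n => kact (k (φ n)) u) atTop (𝓝 (kact K u)) :=
      tendsto_kact (fun n => hkG (φ n)) hK hkK (fun _ => Sph_subset_Bal hu) (Sph_subset_Bal hu)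
        tendsto_const_nhds
    have h2 : Tendsto (fun n => kact (k (φ n)) u) atTop (𝓝[Sph] (kact K u)) :=
      tendsto_nhdsWithin_iff.2 ⟨h1, Eventually.of_forall fun n => kact_mem_Sph (hkG _) hu⟩
    exact (hc _ (kact_mem_Sph hK hu)).tendsto.comp h2
  have hKinj : ∀ u ∈ Sph, ∀ v ∈ Sph, u ≠ v → θ (kact K u) ≠ θ (kact K v) := by
    intro u hu v hv huv e
    have e1 := hinj (kact_mem_Sph hK hu) (kact_mem_Sph hK hv) e
    have e2 := congrArg (kact K⁻¹) e1
    rw [MF.kact_inv' hK hu, MF.kact_inv' hK hv] at e2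
    exact huv e2
  -- `m` is bounded along the subsequence
  obtain ⟨e, he⟩ : ∃ e : E, e ≠ 0 := exists_ne 0
  have hst : st (0 : E) ≠ st e := fun h => he (st_injective h).symm
  have hAe : st (A 0) ≠ st (A e) := fun h => he (A.injective (st_injective h)).symm
  have hS : ∀ u ∈ Sph, θ (kact K u) ∈ Sph := fun u hu => hθ (kact_mem_Sph hK hu)
  have p1 := MF.bb_pos (hS _ (st_mem 0)) (hS _ (st_mem e)) (hKinj _ (st_mem 0) _ (st_mem e) hst)
  have p2 := MF.bb_pos (hS _ (st_mem 0)) (hS _ pinf_mem) (hKinj _ (st_mem 0) _ pinf_mem (st_ne_pinf 0))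
  have p3 := MF.bb_pos (hS _ (st_mem e)) (hS _ pinf_mem) (hKinj _ (st_mem e) _ pinf_mem (st_ne_pinf e))
  have p4 := MF.bb_pos (st_mem (A 0)) (st_mem (A e)) hAe
  have p5 := MF.bb_pos (st_mem (A 0)) pinf_mem (st_ne_pinf _)
  have p6 := MF.bb_pos (st_mem (A e)) pinf_mem (st_ne_pinf _)
  obtain ⟨c, hc0, c1, c2, c3, c4, c5, c6⟩ : ∃ c : ℝ, 0 < c ∧
      c < bb (θ (kact K (st 0))) (θ (kact K (st e))) ∧
      c < bb (θ (kact K (st 0))) (θ (kact K pinf)) ∧
      c < bb (θ (kact K (st e))) (θ (kact K pinf)) ∧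
      c < bb (st (A 0)) (st (A e)) ∧ c < bb (st (A 0)) pinf ∧ c < bb (st (A e)) pinf := by
    refine ⟨(min (min (min (bb (θ (kact K (st 0))) (θ (kact K (st e))))
      (bb (θ (kact K (st 0))) (θ (kact K pinf)))) (min (bb (θ (kact K (st e))) (θ (kact K pinf)))
      (bb (st (A 0)) (st (A e))))) (min (bb (st (A 0)) pinf) (bb (st (A e)) pinf))) / 2, ?_⟩
    have hmin : 0 < min (min (min (bb (θ (kact K (st 0))) (θ (kact K (st e))))
      (bb (θ (kact K (st 0))) (θ (kact K pinf)))) (min (bb (θ (kact K (st e))) (θ (kact K pinf)))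
      (bb (st (A 0)) (st (A e))))) (min (bb (st (A 0)) pinf) (bb (st (A e)) pinf)) :=
      lt_min (lt_min (lt_min p1 p2) (lt_min p3 p4)) (lt_min p5 p6)
    have q : ∀ w, min (min (min (bb (θ (kact K (st 0))) (θ (kact K (st e))))
      (bb (θ (kact K (st 0))) (θ (kact K pinf)))) (min (bb (θ (kact K (st e))) (θ (kact K pinf)))
      (bb (st (A 0)) (st (A e))))) (min (bb (st (A 0)) pinf) (bb (st (A e)) pinf)) ≤ w →
      (min (min (min (bb (θ (kact K (st 0))) (θ (kact K (st e))))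
      (bb (θ (kact K (st 0))) (θ (kact K pinf)))) (min (bb (θ (kact K (st e))) (θ (kact K pinf)))
      (bb (st (A 0)) (st (A e))))) (min (bb (st (A 0)) pinf) (bb (st (A e)) pinf))) / 2 < w := by
      intro w hw
      linarith
    refine ⟨by linarith, q _ ?_, q _ ?_, q _ ?_, q _ ?_, q _ ?_, q _ ?_⟩ <;> simp
  have hzφ : ∀ y, Tendsto (fun n => st (z (φ n) y)) atTop (𝓝 (st (A y))) := fun y =>
    (continuous_st.tendsto _).comp ((hzl y).comp hφ.tendsto_atTop)
  have ev : ∀ᶠ n in atTop, hd 0 (act (m (φ n)) 0) ≤ (bounded_of_three hc0).choose := by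
    have e1 := (MF.tendsto_bb (hlim _ (st_mem 0)) (hlim _ (st_mem e))).eventually (lt_mem_nhds c1)
    have e2 := (MF.tendsto_bb (hlim _ (st_mem 0)) (hlim _ pinf_mem)).eventually (lt_mem_nhds c2)
    have e3 := (MF.tendsto_bb (hlim _ (st_mem e)) (hlim _ pinf_mem)).eventually (lt_mem_nhds c3)
    have e4 := (MF.tendsto_bb (hzφ 0) (hzφ e)).eventually (lt_mem_nhds c4)
    have e5 := (MF.tendsto_bb (hzφ 0) (tendsto_const_nhds (x := pinf))).eventually (lt_mem_nhds c5)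
    have e6 := (MF.tendsto_bb (hzφ e) (tendsto_const_nhds (x := pinf))).eventually (lt_mem_nhds c6)
    filter_upwards [e1, e2, e3, e4, e5, e6] with n h1 h2 h3 h4 h5 h6
    refine (bounded_of_three hc0).choose_spec (m (φ n)) (hmG _) _
      (hθ (kact_mem_Sph (hkG (φ n)) (st_mem 0))) _ (hθ (kact_mem_Sph (hkG (φ n)) (st_mem e))) _
      (hθ (kact_mem_Sph (hkG (φ n)) pinf_mem)) h1.le h2.le h3.le ?_ ?_ ?_
    · rw [hzoom, hzoom]; exact h4.le
    · rw [hzoom, hzoomi]; exact h5.le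
    · rw [hzoom, hzoomi]; exact h6.le
  obtain ⟨N, hN⟩ := eventually_atTop.1 ev
  obtain ⟨ψ, hψ, M, hM, hmM⟩ := exists_subseq (g := fun n => m (φ (n + N))) (fun n => hmG _)
    (r := (bounded_of_three hc0).choose) (fun n => hN _ (Nat.le_add_left _ _))
  have hsub : Tendsto (fun n => ψ n + N) atTop atTop :=
    (tendsto_add_atTop_nat N).comp hψ.tendsto_atTop
  refine ⟨M, K, hM, hK, fun y => ?_, ?_⟩
  · have h1 : Tendsto (fun n => kact (m (φ (ψ n + N))) (θ (kact (k (φ (ψ n + N))) (st y)))) atTop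
        (𝓝 (kact M (θ (kact K (st y))))) := by
      refine tendsto_kact (fun n => hmG _) hM hmM (fun n => Sph_subset_Bal
        (hθ (kact_mem_Sph (hkG _) (st_mem y)))) (Sph_subset_Bal (hS _ (st_mem y))) ?_
      exact (hlim _ (st_mem y)).comp hsub
    have h2 : Tendsto (fun n => kact (m (φ (ψ n + N))) (θ (kact (k (φ (ψ n + N))) (st y)))) atTop
        (𝓝 (st (A y))) := by
      simp only [hzoom]
      exact (hzφ y).comp hsub
    exact tendsto_nhds_unique h1 h2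
  · have h1 : Tendsto (fun n => kact (m (φ (ψ n + N))) (θ (kact (k (φ (ψ n + N))) pinf))) atTop
        (𝓝 (kact M (θ (kact K pinf)))) := by
      refine tendsto_kact (fun n => hmG _) hM hmM (fun n => Sph_subset_Bal
        (hθ (kact_mem_Sph (hkG _) pinf_mem))) (Sph_subset_Bal (hS _ pinf_mem)) ?_
      exact (hlim _ pinf_mem).comp hsub
    simp only [hzoomi] at h1
    exact tendsto_nhds_unique h1 tendsto_const_nhds

end Pool.Agent.helper88.WB
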